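import Pool.Agent.helper72.HP.A8

/-!
MP_5ae64c_pr, module A9: the standing assumptions hold along the sequence.
-/

set_option autoImplicit false

open scoped BigOperators Topology
open Filter MeasureTheory

namespace Pool.Agent.helper20.HP

/-- the mixing time is polynomially smaller than the square root of the volume -/
theorem tmix_small (S : Setup) (ε : ℝ) (hε : 0 < ε) :
    ∀ᶠ k in atTop, ((tmix (S.G k) + 1 : ℕ) : ℝ)
      ≤ ε * (Fintype.card (S.V k) : ℝ) ^ (1 / 2 - min S.α (1 / 4)) := by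
  have hcard : Tendsto (fun k => (Fintype.card (S.V k) : ℝ)) atTop atTop :=
    tendsto_natCast_atTop_atTop.comp S.card
  have h1 : ∀ᶠ k in atTop, (tmix (S.G k) : ℝ) / (Fintype.card (S.V k) : ℝ) ^ (1 / 2 - S.α) < ε / 2 :=
    S.A2.eventually (gt_mem_nhds (by positivity))
  have h2 : ∀ᶠ k in atTop, (1 : ℝ) ≤ Fintype.card (S.V k) := hcard.eventually_ge_atTop 1
  have h3 : ∀ᶠ k in atTop, (2 / ε) ≤ (Fintype.card (S.V k) : ℝ) ^ (1 / 4 : ℝ) :=
    ((tendsto_rpow_atTop (by norm_num : (0 : ℝ) < 1 / 4)).comp hcard).eventually_ge_atTop _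
  filter_upwards [h1, h2, h3] with k hk1 hk2 hk3
  set n : ℝ := ((Fintype.card (S.V k) : ℕ) : ℝ) with hn
  have hn0 : 0 < n := by linarith
  have hmin : min S.α (1 / 4) ≤ S.α := min_le_left _ _
  have hmin' : min S.α (1 / 4) ≤ 1 / 4 := min_le_right _ _
  have e1 : n ^ (1 / 2 - S.α) ≤ n ^ (1 / 2 - min S.α (1 / 4)) :=
    Real.rpow_le_rpow_of_exponent_le hk2 (by linarith)
  have e2 : n ^ (1 / 4 : ℝ) ≤ n ^ (1 / 2 - min S.α (1 / 4)) :=
    Real.rpow_le_rpow_of_exponent_le hk2 (by linarith)
  have hp : 0 < n ^ (1 / 2 - S.α) := Real.rpow_pos_of_pos hn0 _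
  rw [div_lt_iff₀ hp] at hk1
  have e3 : 1 ≤ ε / 2 * n ^ (1 / 4 : ℝ) := by
    have := mul_le_mul_of_nonneg_left hk3 (show (0 : ℝ) ≤ ε / 2 by positivity)
    have h4 : ε / 2 * (2 / ε) = 1 := by field_simp
    linarith
  push_cast
  have e4 := mul_le_mul_of_nonneg_left e1 (show (0 : ℝ) ≤ ε / 2 by positivity)
  have e5 := mul_le_mul_of_nonneg_left e2 (show (0 : ℝ) ≤ ε / 2 by positivity)
  linarith

theorem par_eventually (S : Setup) (K : ∀ k, HW (S.V k))
    (hK : ∀ k t x y, (K k).pt t x y = lazyP (S.G k) t x y) :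
    ∀ᶠ k in atTop, Par (K k) (max S.θ 1) (tmix (S.G k) + 1) := by
  have hcard : Tendsto (fun k => (Fintype.card (S.V k) : ℝ)) atTop atTop :=
    tendsto_natCast_atTop_atTop.comp S.card
  have h2 : ∀ᶠ k in atTop, (16 : ℝ) ≤ Fintype.card (S.V k) := hcard.eventually_ge_atTop 16
  filter_upwards [tmix_small S (1 / 32) (by norm_num), h2] with k hk1 hk2
  have hc2 : 2 ≤ Fintype.card (S.V k) := by
    have : (2 : ℝ) ≤ Fintype.card (S.V k) := by linarith
    exact_mod_cast this
  have hn0 : (0 : ℝ) < Fintype.card (S.V k) := by linarith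
  refine ⟨le_max_right _ _, ?_, ?_, by omega, ?_⟩
  · refine le_trans ?_ (le_max_left _ _)
    have hcc : ∀ t, cc (K k) t = lazyP (S.G k) t (S.o k) (S.o k) := by
      intro t
      unfold cc
      have : ∀ x, (K k).pt t x x = lazyP (S.G k) t (S.o k) (S.o k) := by
        intro x
        obtain ⟨σ, hσ, hx⟩ := (K k).homog (S.o k) x
        rw [← hK k t (S.o k) (S.o k), ← hx]
        unfold HW.pt
        have key : ∀ t u v, ptOf (K k).p t (σ u) (σ v) = ptOf (K k).p t u v := by
          intro t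
          induction t with
          | zero => intro u v; simp [ptOf]
          | succ t ih =>
            intro u v
            unfold ptOf
            rw [← Equiv.sum_comp σ]
            exact Finset.sum_congr rfl fun z _ => by rw [hσ, ih]
        exact key t _ _
      simp_rw [this]
      rw [Finset.sum_const, nsmul_eq_mul, Finset.card_univ]
      field_simp
    simp_rw [hcc]
    exact S.A1 k (S.o k)
  · have hbase : ∀ x y, (K k).pt (tmix (S.G k)) x y ≤ 3 / (2 * (Fintype.card (S.V k) : ℝ)) := by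
      intro x y
      have := tmix_spec (S.G k) (S.conn k) (S.trans k) hc2 x y
      rw [hK, le_div_iff₀ (by positivity)]
      have h3 := (abs_le.1 this).2
      linarith
    have hstep : ∀ s x y, (K k).pt (tmix (S.G k) + s) x y ≤ 3 / (2 * (Fintype.card (S.V k) : ℝ)) := by
      intro s
      induction s with
      | zero => exact hbase
      | succ s ih =>
        intro x y
        have e : (K k).pt (tmix (S.G k) + (s + 1)) x y =
            ∑ z, (K k).p x z * (K k).pt (tmix (S.G k) + s) z y := rfl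
        rw [e]
        calc ∑ z, (K k).p x z * (K k).pt (tmix (S.G k) + s) z y
            ≤ ∑ z, (K k).p x z * (3 / (2 * (Fintype.card (S.V k) : ℝ))) :=
              Finset.sum_le_sum fun z _ => mul_le_mul_of_nonneg_left (ih z y) ((K k).nonneg x z)
          _ = _ := by rw [← Finset.sum_mul, (K k).sum_one, one_mul]
    intro t ht x y
    have := hstep (t - tmix (S.G k)) x y
    rwa [show tmix (S.G k) + (t - tmix (S.G k)) = t by omega] at this
  · set n := Fintype.card (S.V k) with hn
    have hmin : 0 ≤ min S.α (1 / 4) := le_min S.α_pos.le (by norm_num)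
    have e1 : (n : ℝ) ^ (1 / 2 - min S.α (1 / 4)) ≤ (n : ℝ) ^ (1 / 2 : ℝ) :=
      Real.rpow_le_rpow_of_exponent_le (by linarith) (by linarith)
    rw [← Real.sqrt_eq_rpow] at e1
    have e2 : Real.sqrt n < (Nat.sqrt n : ℝ) + 1 := by
      rw [Real.sqrt_lt' (by positivity)]
      have := Nat.lt_succ_sqrt n
      have h3 : (n : ℝ) < (Nat.sqrt n + 1) * (Nat.sqrt n + 1) := by exact_mod_cast this
      nlinarith
    have e3 : (1 : ℝ) ≤ Nat.sqrt n := by
      have : 1 ≤ Nat.sqrt n := Nat.le_sqrt.2 (by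
        have : (1 : ℝ) ≤ n := by linarith
        have : 1 ≤ n := by exact_mod_cast this
        simpa using this)
      exact_mod_cast this
    have e4 : (16 : ℝ) * ((tmix (S.G k) + 1 : ℕ) : ℝ) ≤ Nat.sqrt n := by
      have := mul_le_mul_of_nonneg_left e1 (show (0 : ℝ) ≤ 1 / 32 by norm_num)
      linarith
    exact_mod_cast e4

end Pool.Agent.helper20.HP
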