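import Pool.Agent.helper20.HP.Goal
import Pool.Agent.helper72.UT.Moment

/-!
MP_5ae64c_pr, module A7: the lazy walk of a finite connected vertex-transitive graph is a
homogeneous symmetric kernel with decreasing return probabilities.
-/

set_option autoImplicit false

open scoped BigOperators Topology
open Filter MeasureTheory

namespace Pool.Agent.helper20.HP

open Pool.Agent.helper72.UT (lz Reg)

section A7
variable {V : Type} [Fintype V] [DecidableEq V]

/-- powers of the matrix are the iterated kernels -/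
theorem A7_ptOf (p : V → V → ℝ) (t : ℕ) (x y : V) :
    ptOf p t x y = ((Matrix.of p) ^ t) x y := by
  induction t generalizing x with
  | zero => simp [ptOf, Matrix.one_apply]
  | succ t ih =>
    rw [pow_succ', Matrix.mul_apply]
    unfold ptOf
    exact Finset.sum_congr rfl fun z _ => by rw [ih]; rfl

open Classical in
theorem A7_lz_apply (G : SimpleGraph V) (D : ℕ) (x y : V) :
    lz G D x y = (if x = y then (1 / 2 : ℝ) else 0) + (if G.Adj x y then 1 / (2 * (D : ℝ)) else 0) := by
  unfold lz
  congr 1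

theorem A7_lz_nonneg (G : SimpleGraph V) (D : ℕ) (x y : V) : 0 ≤ lz G D x y := by
  classical
  rw [A7_lz_apply]
  split_ifs <;> positivity

theorem A7_lz_symm (G : SimpleGraph V) (D : ℕ) (x y : V) : lz G D x y = lz G D y x := by
  classical
  rw [A7_lz_apply, A7_lz_apply]
  simp only [eq_comm (a := x) (b := y), G.adj_comm x y]

open Classical in
theorem A7_sum_adj {G : SimpleGraph V} {D : ℕ} (h : Reg G D) (x : V) :
    ∑ y, (if G.Adj x y then (1 : ℝ) else 0) = D := by
  rw [Finset.sum_boole]
  exact_mod_cast h.reg x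

theorem A7_lz_sum {G : SimpleGraph V} {D : ℕ} (h : Reg G D) (x : V) : ∑ y, lz G D x y = 1 := by
  classical
  have h1 := A7_sum_adj h x
  have hD : (D : ℝ) ≠ 0 := by exact_mod_cast h.pos.ne'
  simp_rw [A7_lz_apply]
  rw [Finset.sum_add_distrib, Finset.sum_ite_eq, if_pos (Finset.mem_univ x)]
  have : ∑ y, (if G.Adj x y then 1 / (2 * (D : ℝ)) else 0) =
      (1 / (2 * (D : ℝ))) * ∑ y, (if G.Adj x y then (1 : ℝ) else 0) := by
    rw [Finset.mul_sum]
    exact Finset.sum_congr rfl fun y _ => by split_ifs <;> simp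
  rw [this, h1]
  field_simp
  norm_num

/-- the two quadratic forms -/
theorem A7_quad {G : SimpleGraph V} {D : ℕ} (h : Reg G D) (f : V → ℝ) (s : ℝ) (hs : s ^ 2 = 1) :
    ∑ x, ∑ y, (if x = y then (1 : ℝ) else 0) * (f x * f y) +
      s * ∑ x, ∑ y, (open Classical in if G.Adj x y then 1 / (D : ℝ) else 0) * (f x * f y) =
    (1 / 2) * ∑ x, ∑ y, (open Classical in if G.Adj x y then 1 / (D : ℝ) else 0) *
      (f x + s * f y) ^ 2 := by
  classical
  have hD : (D : ℝ) ≠ 0 := by exact_mod_cast h.pos.ne'
  set q : V → V → ℝ := fun x y => if G.Adj x y then 1 / (D : ℝ) else 0 with hq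
  have hqs : ∀ x y, q x y = q y x := fun x y => by simp only [hq, G.adj_comm x y]
  have hq1 : ∀ x, ∑ y, q x y = 1 := by
    intro x
    have h1 := A7_sum_adj h x
    have : ∑ y, q x y = (1 / (D : ℝ)) * ∑ y, (if G.Adj x y then (1 : ℝ) else 0) := by
      rw [Finset.mul_sum]
      exact Finset.sum_congr rfl fun y _ => by simp only [hq]; split_ifs <;> simp
    rw [this, h1]
    field_simp
  have e1 : ∑ x, ∑ y, (if x = y then (1 : ℝ) else 0) * (f x * f y) = ∑ x, f x ^ 2 := by
    refine Finset.sum_congr rfl fun x _ => ?_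
    simp only [ite_mul, one_mul, zero_mul]
    rw [Finset.sum_ite_eq, if_pos (Finset.mem_univ x)]
    ring
  have e2 : ∑ x, ∑ y, q x y * (f x + s * f y) ^ 2 =
      ∑ x, ∑ y, q x y * f x ^ 2 + 2 * s * ∑ x, ∑ y, q x y * (f x * f y) +
        ∑ x, ∑ y, q x y * f y ^ 2 := by
    rw [Finset.mul_sum, ← Finset.sum_add_distrib, ← Finset.sum_add_distrib]
    refine Finset.sum_congr rfl fun x _ => ?_
    rw [Finset.mul_sum, ← Finset.sum_add_distrib, ← Finset.sum_add_distrib]
    refine Finset.sum_congr rfl fun y _ => ?_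
    have : (f x + s * f y) ^ 2 = f x ^ 2 + 2 * s * (f x * f y) + s ^ 2 * f y ^ 2 := by ring
    rw [this, hs]
    ring
  have e3 : ∑ x, ∑ y, q x y * f x ^ 2 = ∑ x, f x ^ 2 := by
    refine Finset.sum_congr rfl fun x _ => ?_
    rw [← Finset.sum_mul, hq1, one_mul]
  have e4 : ∑ x, ∑ y, q x y * f y ^ 2 = ∑ x, f x ^ 2 := by
    rw [Finset.sum_comm]
    refine Finset.sum_congr rfl fun y _ => ?_
    rw [← Finset.sum_mul]
    have : ∑ x, q x y = 1 := by
      rw [← hq1 y]
      exact Finset.sum_congr rfl fun x _ => hqs x y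
    rw [this, one_mul]
  rw [e1, e2, e3, e4]
  ring

theorem A7_psd_aux {G : SimpleGraph V} {D : ℕ} (h : Reg G D) (s : ℝ) (hs : s ^ 2 = 1)
    (M : Matrix V V ℝ)
    (hM : ∀ x y, M x y = (1 / 2) * ((if x = y then (1 : ℝ) else 0) +
      s * (open Classical in if G.Adj x y then 1 / (D : ℝ) else 0))) : M.PosSemidef := by
  classical
  refine Matrix.PosSemidef.of_dotProduct_mulVec_nonneg ?_ fun f => ?_
  · ext x y
    rw [Matrix.conjTranspose_apply, hM, hM]
    simp only [star_trivial, eq_comm (a := x) (b := y), G.adj_comm x y]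
  · have e : star f ⬝ᵥ M.mulVec f = (1 / 2) * (∑ x, ∑ y, (if x = y then (1 : ℝ) else 0) * (f x * f y) +
        s * ∑ x, ∑ y, (if G.Adj x y then 1 / (D : ℝ) else 0) * (f x * f y)) := by
      simp only [dotProduct, Matrix.mulVec, Pi.star_apply, star_trivial]
      rw [Finset.mul_sum (a := s), ← Finset.sum_add_distrib, Finset.mul_sum]
      refine Finset.sum_congr rfl fun x _ => ?_
      rw [Finset.mul_sum, Finset.mul_sum (a := s), ← Finset.sum_add_distrib, Finset.mul_sum]
      refine Finset.sum_congr rfl fun y _ => ?_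
      rw [hM]
      ring
    rw [e, A7_quad h f s hs]
    refine mul_nonneg (by norm_num) (mul_nonneg (by norm_num) ?_)
    refine Finset.sum_nonneg fun x _ => Finset.sum_nonneg fun y _ => mul_nonneg ?_ (sq_nonneg _)
    split_ifs <;> positivity

theorem A7_psd {G : SimpleGraph V} {D : ℕ} (h : Reg G D) :
    (Matrix.of (lz G D)).PosSemidef := by
  classical
  refine A7_psd_aux h 1 (by norm_num) _ fun x y => ?_
  rw [Matrix.of_apply, A7_lz_apply]
  have hD : (D : ℝ) ≠ 0 := by exact_mod_cast h.pos.ne'
  split_ifs <;> field_simp <;> ring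

theorem A7_psd' {G : SimpleGraph V} {D : ℕ} (h : Reg G D) :
    (1 - Matrix.of (lz G D)).PosSemidef := by
  classical
  refine A7_psd_aux h (-1) (by norm_num) _ fun x y => ?_
  rw [Matrix.sub_apply, Matrix.one_apply, Matrix.of_apply, A7_lz_apply]
  have hD : (D : ℝ) ≠ 0 := by exact_mod_cast h.pos.ne'
  split_ifs <;> field_simp <;> ring

/-- `P^t (1 - P)` is positive semidefinite -/
theorem A7_psd_pow (P : Matrix V V ℝ) (h1 : P.PosSemidef) (h2 : (1 - P).PosSemidef) (t : ℕ) :
    (P ^ t * (1 - P)).PosSemidef := by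
  have hP : P.conjTranspose = P := h1.isHermitian
  have hQ : (1 - P).conjTranspose = 1 - P := h2.isHermitian
  induction t using Nat.strong_induction_on with
  | _ t ih =>
    match t with
    | 0 => simpa using h2
    | 1 =>
      have a := h2.mul_mul_conjTranspose_same P
      have b := h1.mul_mul_conjTranspose_same (1 - P)
      rw [hP] at a
      rw [hQ] at b
      have := a.add b
      convert this using 1
      noncomm_ring
    | t + 2 =>
      have a := (ih t (by omega)).mul_mul_conjTranspose_same P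
      rw [hP] at a
      convert a using 1
      have hc : P * (1 - P) = (1 - P) * P := by noncomm_ring
      calc P ^ (t + 2) * (1 - P) = P * P ^ t * (P * (1 - P)) := by
            rw [← mul_assoc, ← pow_succ', ← pow_succ]
        _ = P * P ^ t * ((1 - P) * P) := by rw [hc]
        _ = P * (P ^ t * (1 - P)) * P := by simp only [mul_assoc]

/-- regularity of a transitive graph -/
theorem A7_reg (G : SimpleGraph V) (hc : G.Connected)
    (ht : ∀ x y : V, ∃ f : G ≃g G, f x = y) (hcard : 2 ≤ Fintype.card V) : ∃ D, Reg G D := by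
  classical
  obtain ⟨x₀⟩ := hc.nonempty
  refine ⟨(Finset.univ.filter (fun w => G.Adj x₀ w)).card, hc, ?_, ?_⟩
  · rw [Finset.card_pos]
    have : Nontrivial V := Fintype.one_lt_card_iff_nontrivial.1 (by omega)
    obtain ⟨y, hy⟩ := exists_ne x₀
    obtain ⟨w⟩ := hc.preconnected x₀ y
    cases w with
    | nil => exact absurd rfl hy
    | cons hadj _ => exact ⟨_, by simpa using hadj⟩
  · intro v
    obtain ⟨f, hf⟩ := ht x₀ v
    symm
    refine Finset.card_bij (fun w _ => f w) ?_ ?_ ?_
    · intro w hw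
      simp only [Finset.mem_filter, Finset.mem_univ, true_and] at hw ⊢
      rw [← hf]
      exact f.map_rel_iff.2 hw
    · intro a _ b _ hab
      exact f.injective hab
    · intro b hb
      simp only [Finset.mem_filter, Finset.mem_univ, true_and] at hb
      refine ⟨f.symm b, ?_, by simp⟩
      simp only [Finset.mem_filter, Finset.mem_univ, true_and]
      rw [← f.map_rel_iff, hf]
      simpa using hb

/-- the lazy kernel of `G` as an `HW` -/
theorem A7_exists {G : SimpleGraph V} {D : ℕ} (h : Reg G D)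
    (ht : ∀ x y : V, ∃ f : G ≃g G, f x = y) : ∃ K : HW V, K.p = lz G D := by
  classical
  have hom : ∀ x y : V, ∃ σ : Equiv.Perm V, (∀ u v, lz G D (σ u) (σ v) = lz G D u v) ∧ σ x = y := by
    intro x y
    obtain ⟨f, hf⟩ := ht x y
    refine ⟨f.toEquiv, ?_, hf⟩
    intro u v
    rw [A7_lz_apply, A7_lz_apply]
    have h1 : (f.toEquiv u = f.toEquiv v) ↔ u = v := f.toEquiv.apply_eq_iff_eq
    have h2 : G.Adj (f.toEquiv u) (f.toEquiv v) ↔ G.Adj u v := f.map_rel_iff
    simp only [h1, h2]
  have hconst : ∀ t x y, ptOf (lz G D) t x x = ptOf (lz G D) t y y := by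
    intro t x y
    obtain ⟨σ, hσ, hxy⟩ := hom x y
    have : ∀ t u v, ptOf (lz G D) t (σ u) (σ v) = ptOf (lz G D) t u v := by
      intro t
      induction t with
      | zero => intro u v; simp [ptOf]
      | succ t ih =>
        intro u v
        unfold ptOf
        rw [← Equiv.sum_comp σ]
        exact Finset.sum_congr rfl fun z _ => by rw [hσ, ih]
    rw [← hxy, this]
  refine ⟨⟨lz G D, A7_lz_nonneg G D, A7_lz_sum h, A7_lz_symm G D, hom, ?_, ?_⟩, rfl⟩
  · intro t x
    have h1 := (A7_psd_pow _ (A7_psd h) (A7_psd' h) t).diag_nonneg (i := x)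
    rw [mul_sub, mul_one, ← pow_succ, Matrix.sub_apply] at h1
    rw [A7_ptOf, A7_ptOf]
    linarith
  · intro t x y
    have h1 := ((A7_psd h).pow t).dotProduct_mulVec_nonneg (Pi.single x 1 - Pi.single y 1)
    have hsym : ∀ t u v, ((Matrix.of (lz G D)) ^ t) u v = ((Matrix.of (lz G D)) ^ t) v u := by
      intro t u v
      have := ((A7_psd h).pow t).isHermitian
      have h2 := congrFun (congrFun this u) v
      rw [Matrix.conjTranspose_apply, star_trivial] at h2
      exact h2.symm
    simp only [star_sub, Matrix.mulVec_sub, sub_dotProduct, dotProduct_sub] at h1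
    have hs : ∀ z : V, star (Pi.single z (1 : ℝ) : V → ℝ) = Pi.single z 1 := by
      intro z; ext w; simp
    rw [hs, hs] at h1
    simp only [Matrix.mulVec_single_one, single_one_dotProduct,
      Matrix.col_apply] at h1
    have h3 := hconst t x y
    rw [A7_ptOf, A7_ptOf] at h3
    rw [A7_ptOf, A7_ptOf]
    have h4 := hsym t x y
    linarith

theorem A7_lazyP {G : SimpleGraph V} {D : ℕ} (h : Reg G D) (t : ℕ) (x y : V) :
    ptOf (lz G D) t x y = lazyP G t x y := by
  classical
  have hD : (D : ℝ) ≠ 0 := by exact_mod_cast h.pos.ne'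
  induction t generalizing x with
  | zero =>
    unfold ptOf lazyP
    by_cases hxy : x = y <;> simp [hxy]
  | succ t ih =>
    have e1 : ptOf (lz G D) (t + 1) x y = ∑ z, lz G D x z * ptOf (lz G D) t z y := rfl
    have e2 : lazyP G (t + 1) x y = (1 / 2) * lazyP G t x y
      + (1 / 2) * ((∑ z, if G.Adj x z then lazyP G t z y else 0)
        / ((Finset.univ.filter (fun z => G.Adj x z)).card : ℝ)) := by
      conv_lhs => unfold lazyP
    rw [e1, e2]
    have e3 : ((Finset.univ.filter (fun z => G.Adj x z)).card : ℝ) = D := by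
      have := h.reg x
      exact_mod_cast this
    rw [e3]
    simp_rw [ih, A7_lz_apply, add_mul]
    rw [Finset.sum_add_distrib]
    congr 1
    · simp only [ite_mul, zero_mul]
      rw [Finset.sum_ite_eq, if_pos (Finset.mem_univ x)]
    · rw [Finset.sum_div, Finset.mul_sum]
      refine Finset.sum_congr rfl fun z _ => ?_
      split_ifs
      · field_simp
      · simp

end A7

theorem lazyHW_exists {V : Type} [Fintype V] [DecidableEq V] (G : SimpleGraph V) (hc : G.Connected)
    (ht : ∀ x y : V, ∃ f : G ≃g G, f x = y) (hcard : 2 ≤ Fintype.card V) :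
    ∃ K : HW V, ∀ t x y, K.pt t x y = lazyP G t x y := by
  obtain ⟨D, hD⟩ := A7_reg G hc ht hcard
  obtain ⟨K, hK⟩ := A7_exists hD ht
  refine ⟨K, fun t x y => ?_⟩
  unfold HW.pt
  rw [hK]
  exact A7_lazyP hD t x y

end Pool.Agent.helper20.HP
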