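import Pool.Agent.helper20.HP.Defs3
import Pool.Agent.helper97.HP.B6
import Pool.Agent.helper72.UT.Bridge

/-!
MP_5ae64c_pr, module M2: Theorem M for the profile functions implies the L2 continuity of the height
profile of the uniform spanning tree. Uses from S0: lazyHW_exists, par_eventually, PhiN_tendsto.
-/

set_option autoImplicit false

open scoped BigOperators Topology
open Filter MeasureTheory

namespace Pool.Agent.helper20.HP

open Pool.Agent.helper72.UT (lz Reg PathTo ust_second)

/-- regularity of a transitive graph -/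
theorem M2_reg {V : Type} [Fintype V] (G : SimpleGraph V) (hc : G.Connected)
    (ht : ∀ x y : V, ∃ f : G ≃g G, f x = y) (hcard : 2 ≤ Fintype.card V) : ∃ D, Reg G D := by
  classical
  obtain ⟨x₀⟩ := hc.nonempty
  refine ⟨(Finset.univ.filter (fun w => G.Adj x₀ w)).card, hc, ?_, ?_⟩
  · rw [Finset.card_pos]
    have : Nontrivial V := Fintype.one_lt_card_iff_nontrivial.1 (by omega)
    obtain ⟨y, hy⟩ := exists_ne x₀
    obtain ⟨w⟩ := hc.preconnected x₀ y
    cases w with
    | nil => exact absurd rfl hy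
    | cons hadj _ => exact ⟨_, by simpa using hadj⟩
  · intro v
    obtain ⟨f, hf⟩ := ht x₀ v
    symm
    refine Finset.card_bij (fun w _ => f w) ?_ ?_ ?_
    · intro w hw
      simp only [Finset.mem_filter, Finset.mem_univ, true_and] at hw ⊢
      rw [← hf]
      exact f.map_rel_iff.2 hw
    · intro a _ b _ hab
      exact f.injective hab
    · intro b hb
      simp only [Finset.mem_filter, Finset.mem_univ, true_and] at hb
      refine ⟨f.symm b, ?_, by simp⟩
      simp only [Finset.mem_filter, Finset.mem_univ, true_and]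
      rw [← f.map_rel_iff, hf]
      simpa using hb

/-- the kernel is the lazy kernel -/
theorem M2_kernel {V : Type} [Fintype V] [DecidableEq V] {G : SimpleGraph V} {D : ℕ} (h : Reg G D)
    (K : HW V) (hK : ∀ t x y, K.pt t x y = lazyP G t x y) : K.p = lz G D := by
  classical
  funext x y
  have h1 : K.pt 1 x y = K.p x y := by
    show ∑ z, K.p x z * (if z = y then (1 : ℝ) else 0) = _
    simp
  have hD : (D : ℝ) ≠ 0 := by exact_mod_cast h.pos.ne'
  have e3 : ((Finset.univ.filter (fun z => G.Adj x z)).card : ℝ) = D := by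
    have := h.reg x
    exact_mod_cast this
  have h2 : lazyP G 1 x y = (1 / 2) * lazyP G 0 x y
      + (1 / 2) * ((∑ z, if G.Adj x z then lazyP G 0 z y else 0)
        / ((Finset.univ.filter (fun z => G.Adj x z)).card : ℝ)) := by
    conv_lhs => unfold lazyP
  rw [← h1, hK, h2, e3]
  have e0 : ∀ z, lazyP G 0 z y = if z = y then (1 : ℝ) else 0 := by
    intro z
    unfold lazyP
    by_cases hz : z = y <;> simp [hz]
  have e1 : (∑ z, if G.Adj x z then lazyP G 0 z y else 0) = if G.Adj x y then (1 : ℝ) else 0 := by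
    rw [Finset.sum_eq_single_of_mem y (Finset.mem_univ y)]
    · rw [e0, if_pos rfl]
    · intro z _ hz
      rw [e0, if_neg hz]
      split_ifs <;> rfl
  rw [e1, e0]
  unfold lz
  by_cases hxy : x = y <;> by_cases ha : G.Adj x y <;> simp [hxy, ha] <;> field_simp

/-- the bound for `Phi` itself -/
theorem M2_Phi_le {V : Type} [Fintype V] [DecidableEq V] {K : HW V} {θ : ℝ} {h : ℕ}
    (hP : Par K θ h) (Γ : List V) (hΓ : Γ.Nodup) (r : ℕ) :
    Phi K Γ r ≤ CP θ * ((Nat.sqrt (Fintype.card V) : ℝ) + r) :=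
  le_of_tendsto' (PhiN_tendsto K Γ hΓ r) fun N => phi_bound hP Γ hΓ N r

/-- the statement for sequences whose graphs have at least two vertices -/
theorem M2_main (hM : MGoal) (S : Setup) (h2 : ∀ k, 2 ≤ Fintype.card (S.V k)) (A ε : ℝ)
    (hA : 0 < A) (hε : 0 < ε) : ∃ δ : ℝ, 0 < δ ∧ ∀ᶠ k in atTop,
    ∀ r r' : ℕ, (r : ℝ) ≤ A * Real.sqrt (Fintype.card (S.V k)) →
    (r' : ℝ) ≤ A * Real.sqrt (Fintype.card (S.V k)) →
    |(r : ℝ) - r'| ≤ δ * Real.sqrt (Fintype.card (S.V k)) →
    ustE (S.G k) (fun T => ((height T (S.o k) r : ℝ) - height T (S.o k) r') ^ 2)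
      ≤ ε * (Fintype.card (S.V k) : ℝ) := by
  choose K hK using fun k => lazyHW_exists (S.G k) (S.conn k) (S.trans k) (h2 k)
  choose D hD using fun k => M2_reg (S.G k) (S.conn k) (S.trans k) (h2 k)
  set θ := max S.θ 1 with hθ
  have hθ1 : 1 ≤ θ := le_max_right _ _
  have hCP : 0 < CP θ := by
    unfold CP CZ
    positivity
  set A' : ℝ := 2 * A + 1 with hA'
  set C : ℝ := 2 * (CP θ * (1 + A')) with hC
  have hC0 : 0 < C := by positivity
  obtain ⟨δ, hδ, hev⟩ := hM S K hK A' (ε / C) (by positivity)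
  refine ⟨δ / 2, by positivity, ?_⟩
  filter_upwards [hev, par_eventually S K hK] with k hk hPar r r' hr hr' hrr'
  set n := Fintype.card (S.V k) with hn
  set L := Nat.sqrt n with hL
  have hn2 : 2 ≤ n := h2 k
  have hL1 : 1 ≤ L := Nat.le_sqrt.2 (by omega)
  have hL1R : (1 : ℝ) ≤ L := by exact_mod_cast hL1
  have hs1 : Real.sqrt n ≤ 2 * L := by
    rw [Real.sqrt_le_left (by positivity)]
    have h3 := Nat.lt_succ_sqrt n
    have h4 : (n : ℝ) < (L + 1) * (L + 1) := by exact_mod_cast h3
    nlinarith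
  have hLn : (L : ℝ) * L ≤ n := by exact_mod_cast Nat.sqrt_le n
  have hrL : (r : ℝ) ≤ 2 * A * L := by
    have := mul_le_mul_of_nonneg_left hs1 hA.le
    linarith
  have hrL' : (r' : ℝ) ≤ 2 * A * L := by
    have := mul_le_mul_of_nonneg_left hs1 hA.le
    linarith
  have hrA : (r : ℝ) + 1 ≤ A' * L := by rw [hA']; nlinarith
  have hrA' : (r' : ℝ) + 1 ≤ A' * L := by rw [hA']; nlinarith
  have hrr : |(r : ℝ) - r'| ≤ δ * L := by
    have := mul_le_mul_of_nonneg_left hs1 (show (0 : ℝ) ≤ δ / 2 by positivity)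
    linarith
  have hp := M2_kernel (hD k) (K k) (hK k)
  have key := ust_second (hD k) (K k) hp (S.o k) r r' (ε / C * L) (by
    intro γ hγ hlen
    refine hk γ hγ.nodup ?_ r r' (by linarith) (by linarith) hrr
    rcases hlen with hlen | hlen
    · rw [hlen]; push_cast; exact hrA
    · rw [hlen]; push_cast; exact hrA')
  refine key.trans ?_
  have b1 := M2_Phi_le hPar [S.o k] (by simp) r
  have b2 := M2_Phi_le hPar [S.o k] (by simp) r'
  have b3 : Phi (K k) [S.o k] r + Phi (K k) [S.o k] r' ≤ C * L := by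
    have c1 : CP θ * ((L : ℝ) + r) ≤ CP θ * (1 + A') * L := by
      rw [mul_assoc]
      refine mul_le_mul_of_nonneg_left ?_ hCP.le
      linarith
    have c2 : CP θ * ((L : ℝ) + r') ≤ CP θ * (1 + A') * L := by
      rw [mul_assoc]
      refine mul_le_mul_of_nonneg_left ?_ hCP.le
      linarith
    rw [hC]
    linarith
  calc ε / C * L * (Phi (K k) [S.o k] r + Phi (K k) [S.o k] r') ≤ ε / C * L * (C * L) :=
        mul_le_mul_of_nonneg_left b3 (by positivity)
    _ = ε * (L * L) := by field_simp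
    _ ≤ ε * n := mul_le_mul_of_nonneg_left hLn hε.le

theorem star_of_M (hM : MGoal) : StarGoal := by
  intro S A ε hA hε
  obtain ⟨N, hN⟩ := eventually_atTop.1 (S.card.eventually_ge_atTop 2)
  have hsh : Tendsto (fun k : ℕ => k + N) atTop atTop := tendsto_add_atTop_nat N
  set S' : Setup :=
    { V := fun k => S.V (k + N)
      ft := fun k => S.ft (k + N)
      de := fun k => S.de (k + N)
      G := fun k => S.G (k + N)
      conn := fun k => S.conn (k + N)
      trans := fun k => S.trans (k + N)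
      card := S.card.comp hsh
      θ := S.θ
      A1 := fun k => S.A1 (k + N)
      α := S.α
      α_pos := S.α_pos
      A2 := S.A2.comp hsh
      o := fun k => S.o (k + N) } with hS'
  obtain ⟨δ, hδ, hev⟩ := M2_main hM S' (fun k => hN (k + N) (Nat.le_add_left _ _)) A ε hA hε
  refine ⟨δ, hδ, ?_⟩
  obtain ⟨M, hMM⟩ := eventually_atTop.1 hev
  refine eventually_atTop.2 ⟨M + N, fun k hk => ?_⟩
  obtain ⟨j, rfl⟩ : ∃ j, k = j + N := ⟨k - N, by omega⟩
  exact hMM j (by omega)

end Pool.Agent.helper20.HP
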