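import Pool.Agent.helper72.HP.A7

/-!
MP_5ae64c_pr, module A8: the mixing time is attained.
-/

set_option autoImplicit false

open scoped BigOperators Topology
open Filter MeasureTheory

namespace Pool.Agent.helper20.HP

open Pool.Agent.helper72.UT (lz Reg)

section A8
variable {V : Type} [Fintype V] [DecidableEq V]

theorem A8_nonneg (K : HW V) (t : ℕ) (x y : V) : 0 ≤ ptOf K.p t x y := by
  induction t generalizing x with
  | zero => unfold ptOf; split_ifs <;> norm_num
  | succ t ih => exact Finset.sum_nonneg fun z _ => mul_nonneg (K.nonneg _ _) (ih z)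

theorem A8_sum (K : HW V) (t : ℕ) (x : V) : ∑ y, ptOf K.p t x y = 1 := by
  induction t generalizing x with
  | zero => unfold ptOf; rw [Finset.sum_ite_eq, if_pos (Finset.mem_univ x)]
  | succ t ih =>
    unfold ptOf
    rw [Finset.sum_comm]
    simp_rw [← Finset.mul_sum, ih, mul_one]
    exact K.sum_one x

theorem A8_add (K : HW V) (s t : ℕ) (x y : V) :
    ptOf K.p (s + t) x y = ∑ z, ptOf K.p s x z * ptOf K.p t z y := by
  rw [A7_ptOf, pow_add, Matrix.mul_apply]
  exact Finset.sum_congr rfl fun z _ => by rw [A7_ptOf, A7_ptOf]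

theorem A8_symm (K : HW V) (t : ℕ) (x y : V) : ptOf K.p t x y = ptOf K.p t y x := by
  induction t generalizing x y with
  | zero => unfold ptOf; simp only [eq_comm]
  | succ t ih =>
    have e1 : ptOf K.p (t + 1) x y = ∑ z, K.p x z * ptOf K.p t z y := rfl
    have e2 : ptOf K.p (t + 1) y x = ∑ z, ptOf K.p t y z * ptOf K.p 1 z x := A8_add K t 1 y x
    have e3 : ∀ z, ptOf K.p 1 z x = K.p z x := by
      intro z
      show ∑ w, K.p z w * ptOf K.p 0 w x = _
      unfold ptOf
      simp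
    rw [e1, e2]
    refine Finset.sum_congr rfl fun z _ => ?_
    rw [e3, ih z y, K.symm x z]
    ring

/-- contraction of the oscillation -/
theorem A8_osc (K : HW V) (m : ℕ) (δ : ℝ) (hδ : ∀ x y, δ ≤ ptOf K.p m x y) (k : ℕ) (x x' y : V) :
    ptOf K.p (m * k) x y - ptOf K.p (m * k) x' y ≤ (1 - Fintype.card V * δ) ^ k := by
  have hS : 0 ≤ 1 - Fintype.card V * δ := by
    have h1 := A8_sum K m x
    have h2 : ∑ _y : V, δ ≤ ∑ y, ptOf K.p m x y := Finset.sum_le_sum fun y _ => hδ x y
    rw [h1, Finset.sum_const, nsmul_eq_mul, Finset.card_univ] at h2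
    linarith
  induction k generalizing x x' with
  | zero =>
    rw [mul_zero, pow_zero]
    unfold ptOf
    split_ifs <;> norm_num
  | succ k ih =>
    rw [mul_add, mul_one, add_comm (m * k) m, A8_add, A8_add]
    set S := 1 - Fintype.card V * δ with hSd
    set f : V → ℝ := fun z => ptOf K.p (m * k) z y with hf
    obtain ⟨z1, _, hz1⟩ := Finset.exists_max_image Finset.univ f ⟨x, Finset.mem_univ x⟩
    obtain ⟨z2, _, hz2⟩ := Finset.exists_min_image Finset.univ f ⟨x, Finset.mem_univ x⟩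
    have hsumS : ∀ u, ∑ z, (ptOf K.p m u z - δ) = S := by
      intro u
      rw [Finset.sum_sub_distrib, A8_sum, Finset.sum_const, nsmul_eq_mul, Finset.card_univ]
    have h1 : ∑ z, (ptOf K.p m x z - δ) * f z ≤ S * f z1 := by
      rw [← hsumS x, Finset.sum_mul]
      exact Finset.sum_le_sum fun z _ => mul_le_mul_of_nonneg_left (hz1 z (Finset.mem_univ z))
        (by linarith [hδ x z])
    have h2 : S * f z2 ≤ ∑ z, (ptOf K.p m x' z - δ) * f z := by
      rw [← hsumS x', Finset.sum_mul]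
      exact Finset.sum_le_sum fun z _ => mul_le_mul_of_nonneg_left (hz2 z (Finset.mem_univ z))
        (by linarith [hδ x' z])
    have h3 : ∑ z, ptOf K.p m x z * f z - ∑ z, ptOf K.p m x' z * f z =
        ∑ z, (ptOf K.p m x z - δ) * f z - ∑ z, (ptOf K.p m x' z - δ) * f z := by
      simp_rw [sub_mul]
      rw [Finset.sum_sub_distrib, Finset.sum_sub_distrib]
      ring
    have h4 : f z1 - f z2 ≤ S ^ k := ih z1 z2
    have h5 : S * (f z1 - f z2) ≤ S * S ^ k := mul_le_mul_of_nonneg_left h4 hS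
    show ∑ z, ptOf K.p m x z * f z - ∑ z, ptOf K.p m x' z * f z ≤ S ^ (k + 1)
    rw [h3, pow_succ']
    linarith

/-- eventually all transition probabilities are positive -/
theorem A8_pos (K : HW V) {G : SimpleGraph V} {D : ℕ} (h : Reg G D) (hK : K.p = lz G D) :
    ∃ m, ∀ x y, 0 < ptOf K.p m x y := by
  classical
  have hD : (0 : ℝ) < D := by exact_mod_cast h.pos
  have hself : ∀ x, 0 < K.p x x := by
    intro x; rw [hK, A7_lz_apply]; simp
  have hadj : ∀ x y, G.Adj x y → 0 < K.p x y := by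
    intro x y hxy
    rw [hK, A7_lz_apply, if_pos hxy]
    split_ifs <;> positivity
  have hdiag : ∀ t x, 0 < ptOf K.p t x x := by
    intro t
    induction t with
    | zero => intro x; simp [ptOf]
    | succ t ih =>
      intro x
      refine lt_of_lt_of_le (mul_pos (hself x) (ih x)) ?_
      exact Finset.single_le_sum (f := fun z => K.p x z * ptOf K.p t z x)
        (fun z _ => mul_nonneg (K.nonneg _ _) (A8_nonneg K t z x)) (Finset.mem_univ x)
  have hwalk : ∀ x y, ∃ m, ∀ t, m ≤ t → 0 < ptOf K.p t x y := by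
    intro x y
    obtain ⟨w⟩ := h.conn.preconnected x y
    induction w with
    | nil => exact ⟨0, fun t _ => hdiag t _⟩
    | @cons u v w' hadj' _ ih =>
      obtain ⟨m, hm⟩ := ih
      refine ⟨m + 1, fun t ht => ?_⟩
      obtain ⟨s, rfl⟩ : ∃ s, t = s + 1 := ⟨t - 1, by omega⟩
      refine lt_of_lt_of_le (mul_pos (hadj _ _ hadj') (hm s (by omega))) ?_
      exact Finset.single_le_sum (f := fun z => K.p u z * ptOf K.p s z w')
        (fun z _ => mul_nonneg (K.nonneg _ _) (A8_nonneg K s z w')) (Finset.mem_univ v)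
  choose m hm using hwalk
  refine ⟨Finset.univ.sup (fun p : V × V => m p.1 p.2), fun x y => ?_⟩
  exact hm x y _ (Finset.le_sup (f := fun p : V × V => m p.1 p.2) (Finset.mem_univ (x, y)))

/-- convergence to equilibrium -/
theorem A8_mix (K : HW V) {G : SimpleGraph V} {D : ℕ} (h : Reg G D) (hK : K.p = lz G D) :
    ∃ t, ∀ x y, |(Fintype.card V : ℝ) * ptOf K.p t x y - 1| ≤ 1 / 2 := by
  obtain ⟨x₀⟩ := h.conn.nonempty
  obtain ⟨m, hm⟩ := A8_pos K h hK
  obtain ⟨p₀, _, hp₀⟩ := Finset.exists_min_image Finset.univ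
    (fun p : V × V => ptOf K.p m p.1 p.2) ⟨(x₀, x₀), Finset.mem_univ _⟩
  set δ := ptOf K.p m p₀.1 p₀.2 with hδ
  have hδ0 : 0 < δ := hm _ _
  have hδ1 : ∀ x y, δ ≤ ptOf K.p m x y := fun x y => hp₀ (x, y) (Finset.mem_univ _)
  have hn : (0 : ℝ) < Fintype.card V := by
    have : 0 < Fintype.card V := Fintype.card_pos_iff.2 ⟨x₀⟩
    exact_mod_cast this
  set S := 1 - Fintype.card V * δ with hSd
  have hS1 : S < 1 := by rw [hSd]; nlinarith
  have hS0 : 0 ≤ S := by
    have h1 := A8_sum K m x₀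
    have h2 : ∑ _y : V, δ ≤ ∑ y, ptOf K.p m x₀ y := Finset.sum_le_sum fun y _ => hδ1 x₀ y
    rw [h1, Finset.sum_const, nsmul_eq_mul, Finset.card_univ] at h2
    linarith
  obtain ⟨k, hk⟩ := exists_pow_lt_of_lt_one (show (0 : ℝ) < 1 / (2 * Fintype.card V) by positivity) hS1
  refine ⟨m * k, fun x y => ?_⟩
  have hosc : ∀ x x' : V, |ptOf K.p (m * k) x y - ptOf K.p (m * k) x' y| ≤ S ^ k := by
    intro x x'
    rw [abs_le]
    constructor
    · have := A8_osc K m δ hδ1 k x' x y
      linarith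
    · exact A8_osc K m δ hδ1 k x x' y
  have e : (Fintype.card V : ℝ) * ptOf K.p (m * k) x y - 1 =
      ∑ x' : V, (ptOf K.p (m * k) x y - ptOf K.p (m * k) x' y) := by
    rw [Finset.sum_sub_distrib, Finset.sum_const, nsmul_eq_mul, Finset.card_univ]
    congr 1
    rw [← A8_sum K (m * k) y]
    exact Finset.sum_congr rfl fun z _ => A8_symm K (m * k) y z
  rw [e]
  refine (Finset.abs_sum_le_sum_abs _ _).trans ?_
  refine (Finset.sum_le_sum fun x' _ => hosc x x').trans ?_
  rw [Finset.sum_const, nsmul_eq_mul, Finset.card_univ]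
  have : (Fintype.card V : ℝ) * S ^ k ≤ Fintype.card V * (1 / (2 * Fintype.card V)) :=
    mul_le_mul_of_nonneg_left hk.le hn.le
  refine this.trans (le_of_eq ?_)
  field_simp

end A8

theorem tmix_spec {V : Type} [Fintype V] (G : SimpleGraph V) (hc : G.Connected)
    (ht : ∀ x y : V, ∃ f : G ≃g G, f x = y) (hcard : 2 ≤ Fintype.card V) :
    ∀ x y : V, |(Fintype.card V : ℝ) * lazyP G (tmix G) x y - 1| ≤ 1 / 2 := by
  classical
  obtain ⟨D, hD⟩ := A7_reg G hc ht hcard
  obtain ⟨K, hK⟩ := A7_exists hD ht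
  obtain ⟨t, htm⟩ := A8_mix K hD hK
  have hne : {t : ℕ | ∀ x y : V, |(Fintype.card V : ℝ) * lazyP G t x y - 1| ≤ 1 / 2}.Nonempty := by
    refine ⟨t, fun x y => ?_⟩
    rw [← A7_lazyP hD, ← hK]
    exact htm x y
  exact Nat.sInf_mem hne

end Pool.Agent.helper20.HP
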